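import Mathlib

/-!
Arbitrarily long extremal square-free permutations.

The construction: for D at least 6 the sequence `w D 6, ..., w D (2^D - 6)`.
Inside (positions 17 .. 2^D - 17) it is a Toeplitz type sequence: positions 1 mod 4 carry values
in (-3,-2), positions 3 mod 4 values in (2,3), even positions a scaled copy of the same sequence.
The two ends consist of 11 exceptional values each.
-/

set_option autoImplicit false

namespace Run7.h674.SqFree

/-- `Sq f i l`: the blocks of `f` of length `l` starting at `i` and `i + l` are order isomorphic. -/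
def Sq (f : ℕ → ℚ) (i l : ℕ) : Prop :=
  ∀ a < l, ∀ b < l, (f (i + a) < f (i + b) ↔ f (i + l + a) < f (i + l + b))

/-- The Toeplitz sequence. -/
def F (n : ℕ) : ℚ :=
  if n % 4 = 1 then -3 + (n : ℚ) / (n + 1)
  else if n % 4 = 3 then 2 + (n : ℚ) / (n + 1)
  else if h : n = 0 then 0
  else F (n / 2) / 3
termination_by n
decreasing_by omega

theorem F_one {n : ℕ} (h : n % 4 = 1) : F n = -3 + (n : ℚ) / (n + 1) := by
  rw [F, if_pos h]

theorem F_three {n : ℕ} (h : n % 4 = 3) : F n = 2 + (n : ℚ) / (n + 1) := by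
  rw [F, if_neg (by omega), if_pos h]

theorem F_zero : F 0 = 0 := by
  rw [F]; simp

theorem F_two (a : ℕ) : F (2 * a) = F a / 3 := by
  rcases Nat.eq_zero_or_pos a with rfl | ha
  · simp [F_zero]
  · rw [F, if_neg (by omega), if_neg (by omega), dif_neg (by omega),
      Nat.mul_div_cancel_left a (by norm_num)]

theorem frac_lt (n : ℕ) : (n : ℚ) / (n + 1) < 1 := by
  have : (0 : ℚ) < (n : ℚ) + 1 := by positivity
  rw [div_lt_one this]; linarith

theorem frac_ge (n : ℕ) (hn : 1 ≤ n) : 1 / 2 ≤ (n : ℚ) / (n + 1) := by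
  have h1 : (0 : ℚ) < (n : ℚ) + 1 := by positivity
  have h2 : (1 : ℚ) ≤ n := by exact_mod_cast hn
  rw [div_le_div_iff₀ (by norm_num) h1]; linarith

theorem frac_ge' (n : ℕ) (hn : 3 ≤ n) : 3 / 4 ≤ (n : ℚ) / (n + 1) := by
  have h1 : (0 : ℚ) < (n : ℚ) + 1 := by positivity
  have h2 : (3 : ℚ) ≤ n := by exact_mod_cast hn
  rw [div_le_div_iff₀ (by norm_num) h1]; linarith

theorem F_one_bd {n : ℕ} (h : n % 4 = 1) : -5 / 2 ≤ F n ∧ F n < -2 := by
  rw [F_one h]
  have h1 := frac_ge n (by omega)
  have h2 := frac_lt n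
  constructor <;> linarith

theorem F_three_bd {n : ℕ} (h : n % 4 = 3) : 11 / 4 ≤ F n ∧ F n < 3 := by
  rw [F_three h]
  have h1 := frac_ge' n (by omega)
  have h2 := frac_lt n
  constructor <;> linarith

theorem F_bd (n : ℕ) : -3 < F n ∧ F n < 3 := by
  induction n using Nat.strong_induction_on with
  | _ n ih =>
    have h4 : n % 4 = 1 ∨ n % 4 = 3 ∨ n % 2 = 0 := by omega
    rcases h4 with h | h | h
    · have := F_one_bd h
      constructor <;> linarith [this.1, this.2]
    · have := F_three_bd h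
      constructor <;> linarith [this.1, this.2]
    · obtain ⟨a, rfl⟩ : ∃ a, n = 2 * a := ⟨n / 2, by omega⟩
      rcases Nat.eq_zero_or_pos a with rfl | ha
      · rw [Nat.mul_zero, F_zero]; norm_num
      · have := ih a (by omega)
        rw [F_two]
        constructor <;> linarith [this.1, this.2]

theorem F_even_bd {n : ℕ} (h : n % 2 = 0) : -1 < F n ∧ F n < 1 := by
  obtain ⟨a, rfl⟩ : ∃ a, n = 2 * a := ⟨n / 2, by omega⟩
  have := F_bd a
  rw [F_two]
  constructor <;> linarith [this.1, this.2]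

theorem frac_inj {m n : ℕ} (h : (m : ℚ) / (m + 1) = (n : ℚ) / (n + 1)) : m = n := by
  have h1 : (0 : ℚ) < (m : ℚ) + 1 := by positivity
  have h2 : (0 : ℚ) < (n : ℚ) + 1 := by positivity
  rw [div_eq_div_iff h1.ne' h2.ne'] at h
  have : (m : ℚ) = n := by linarith
  exact_mod_cast this

/-- The symmetrised sequence on `(0, 2^D)`. -/
def u (D N : ℕ) : ℚ :=
  if 2 * N < 2 ^ D then F N else if 2 * N = 2 ^ D then 0 else -F (2 ^ D - N)

theorem u_two (D a : ℕ) : u (D + 1) (2 * a) = u D a / 3 := by
  have hp : 2 ^ (D + 1) = 2 * 2 ^ D := by rw [pow_succ]; ring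
  unfold u
  rw [hp]
  rcases lt_trichotomy (2 * a) (2 ^ D) with h | h | h
  · rw [if_pos (by omega), if_pos h, F_two]
  · rw [if_neg (by omega), if_pos (by omega), if_neg (by omega), if_pos h]; simp
  · rw [if_neg (by omega), if_neg (by omega), if_neg (by omega), if_neg (by omega)]
    rw [← Nat.mul_sub, F_two]; ring

theorem u_symm {D N : ℕ} (h0 : 0 < N) (hN : N < 2 ^ D) : u D (2 ^ D - N) = -u D N := by
  unfold u
  rcases lt_trichotomy (2 * N) (2 ^ D) with h | h | h
  · rw [if_neg (by omega), if_neg (by omega), if_pos h]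
    congr 2; omega
  · rw [if_neg (by omega), if_pos (by omega), if_neg (by omega), if_pos h]; simp
  · rw [if_pos (by omega), if_neg (by omega), if_neg (by omega)]; simp

theorem pow_mod4 {D : ℕ} (hD : 2 ≤ D) : 2 ^ D % 4 = 0 := by
  obtain ⟨k, rfl⟩ : ∃ k, D = k + 2 := ⟨D - 2, by omega⟩
  rw [pow_add]; norm_num

theorem u_one {D N : ℕ} (hD : 2 ≤ D) (hN : N < 2 ^ D) (h : N % 4 = 1) :
    -3 < u D N ∧ u D N < -2 := by
  have hp := pow_mod4 hD
  unfold u
  rcases lt_trichotomy (2 * N) (2 ^ D) with h' | h' | h'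
  · rw [if_pos h']
    have := F_one_bd h
    constructor <;> linarith [this.1, this.2]
  · omega
  · rw [if_neg (by omega), if_neg (by omega)]
    have := F_three_bd (n := 2 ^ D - N) (by omega)
    constructor <;> linarith [this.1, this.2]

theorem u_three {D N : ℕ} (hD : 2 ≤ D) (hN : N < 2 ^ D) (h : N % 4 = 3) :
    2 < u D N ∧ u D N < 3 := by
  have hp := pow_mod4 hD
  have h1 := u_one (N := 2 ^ D - N) hD (by omega) (by omega)
  rw [u_symm (by omega) hN] at h1
  constructor <;> linarith [h1.1, h1.2]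

theorem u_even {D N : ℕ} (hD : 1 ≤ D) (hN : N < 2 ^ D) (h : N % 2 = 0) :
    -1 < u D N ∧ u D N < 1 := by
  have hp : 2 ^ D % 2 = 0 := by
    obtain ⟨k, rfl⟩ : ∃ k, D = k + 1 := ⟨D - 1, by omega⟩
    rw [pow_succ]; norm_num
  unfold u
  rcases lt_trichotomy (2 * N) (2 ^ D) with h' | h' | h'
  · rw [if_pos h']; exact F_even_bd h
  · rw [if_neg (by omega), if_pos h']; norm_num
  · rw [if_neg (by omega), if_neg (by omega)]
    have := F_even_bd (n := 2 ^ D - N) (by omega)
    constructor <;> linarith [this.1, this.2]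

theorem u_sig {D N : ℕ} (hD : 2 ≤ D) (hN : N + 1 < 2 ^ D) :
    (u D N < u D (N + 1) ↔ N % 4 = 1 ∨ N % 4 = 2) := by
  have h4 : N % 4 = 0 ∨ N % 4 = 1 ∨ N % 4 = 2 ∨ N % 4 = 3 := by omega
  rcases h4 with h | h | h | h
  · have h1 := u_even (D := D) (N := N) (by omega) (by omega) (by omega : N % 2 = 0)
    have h2 := u_one (N := N + 1) hD hN (by omega)
    constructor
    · intro h3; linarith [h1.1, h2.2]
    · intro h3; omega
  · have h1 := u_one (N := N) hD (by omega) h
    have h2 := u_even (N := N + 1) (by omega) hN (by omega)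
    constructor
    · intro; left; exact h
    · intro; linarith [h1.2, h2.1]
  · have h1 := u_even (D := D) (N := N) (by omega) (by omega) (by omega : N % 2 = 0)
    have h2 := u_three (N := N + 1) hD hN (by omega)
    constructor
    · intro; right; exact h
    · intro; linarith [h1.2, h2.1]
  · have h1 := u_three (N := N) hD (by omega) h
    have h2 := u_even (N := N + 1) (by omega) hN (by omega)
    constructor
    · intro h3; linarith [h1.1, h2.2]
    · intro h3; omega

/-- A sequence with the up-up-down-down signature only has squares of half length `0 mod 4`. -/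
theorem sig_mod {f : ℕ → ℚ} {i l : ℕ} (hl : 2 ≤ l) (hs : Sq f i l)
    (hsig : ∀ N, i ≤ N → N + 1 < i + 2 * l → (f N < f (N + 1) ↔ N % 4 = 1 ∨ N % 4 = 2)) :
    l % 4 = 0 := by
  have h1 := hs 0 (by omega) 1 (by omega)
  simp only [Nat.add_zero] at h1
  rw [hsig i le_rfl (by omega), hsig (i + l) (by omega) (by omega)] at h1
  rcases Nat.lt_or_ge l 3 with h3 | h3
  · omega
  · have h2 := hs 1 (by omega) 2 (by omega)
    have e1 : i + 2 = (i + 1) + 1 := by ring
    have e2 : i + l + 2 = (i + l + 1) + 1 := by ring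
    rw [e1, e2, hsig (i + 1) (by omega) (by omega), hsig (i + l + 1) (by omega) (by omega)] at h2
    omega

theorem u_sqfree : ∀ l, 2 ≤ l → ∀ D i, 1 ≤ i → i + 2 * l ≤ 2 ^ D → ¬ Sq (u D) i l := by
  intro l
  induction l using Nat.strong_induction_on with
  | _ l ih =>
    intro hl D i hi hD hs
    have hD3 : 3 ≤ D := by
      by_contra hcon
      have : D ≤ 2 := by omega
      have h2 : 2 ^ D ≤ 2 ^ 2 := Nat.pow_le_pow_right (by norm_num) this
      omega
    have hmod := sig_mod hl hs (fun N h1 h2 => u_sig (by omega) (by omega))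
    obtain ⟨m, rfl⟩ : ∃ m, l = 2 * m := ⟨l / 2, by omega⟩
    obtain ⟨D', rfl⟩ : ∃ D', D = D' + 1 := ⟨D - 1, by omega⟩
    obtain ⟨j, hj⟩ : ∃ j, j = (i + 1) / 2 := ⟨_, rfl⟩
    have hp : 2 ^ (D' + 1) = 2 * 2 ^ D' := by rw [pow_succ]; ring
    refine ih m (by omega) (by omega) D' j (by omega) (by omega) ?_
    intro a ha b hb
    have key : ∀ x y, (u D' x < u D' y ↔ u (D' + 1) (2 * x) < u (D' + 1) (2 * y)) := by
      intro x y
      rw [u_two, u_two]
      constructor
      · intro h; linarith
      · intro h; linarith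
    rw [key, key]
    have h := hs (2 * (j + a) - i) (by omega) (2 * (j + b) - i) (by omega)
    have e1 : i + (2 * (j + a) - i) = 2 * (j + a) := by omega
    have e2 : i + (2 * (j + b) - i) = 2 * (j + b) := by omega
    have e3 : i + 2 * m + (2 * (j + a) - i) = 2 * (j + m + a) := by omega
    have e4 : i + 2 * m + (2 * (j + b) - i) = 2 * (j + m + b) := by omega
    rw [e1, e2, e3, e4] at h
    exact h

theorem u_inj : ∀ D N M, 0 < N → N < 2 ^ D → 0 < M → M < 2 ^ D → u D N = u D M → N = M := by
  intro D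
  induction D with
  | zero => intro N M h0 h1; simp at h1; omega
  | succ D ih =>
    intro N M hN0 hN hM0 hM h
    rcases Nat.eq_zero_or_pos D with rfl | hDpos
    · simp at hN hM; omega
    have hD2 : 2 ≤ D + 1 := by omega
    -- both 1 mod 4
    have key1 : ∀ N M, N < 2 ^ (D + 1) → M < 2 ^ (D + 1) → N % 4 = 1 → M % 4 = 1 →
        u (D + 1) N = u (D + 1) M → N = M := by
      intro N M hN hM h1 h2 h
      have hp := pow_mod4 hD2
      unfold u at h
      rcases lt_trichotomy (2 * N) (2 ^ (D + 1)) with h' | h' | h'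
      · rw [if_pos h'] at h
        rcases lt_trichotomy (2 * M) (2 ^ (D + 1)) with h'' | h'' | h''
        · rw [if_pos h'', F_one h1, F_one h2] at h
          exact frac_inj (by linarith)
        · omega
        · rw [if_neg (by omega), if_neg (by omega)] at h
          have a1 := F_one_bd h1
          have a2 := F_three_bd (n := 2 ^ (D + 1) - M) (by omega)
          linarith [a1.1, a2.1]
      · omega
      · rw [if_neg (by omega), if_neg (by omega)] at h
        rcases lt_trichotomy (2 * M) (2 ^ (D + 1)) with h'' | h'' | h''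
        · rw [if_pos h''] at h
          have a1 := F_one_bd h2
          have a2 := F_three_bd (n := 2 ^ (D + 1) - N) (by omega)
          linarith [a1.1, a2.1]
        · omega
        · rw [if_neg (by omega), if_neg (by omega), F_three (by omega), F_three (by omega)] at h
          have := frac_inj (m := 2 ^ (D + 1) - N) (n := 2 ^ (D + 1) - M) (by linarith)
          omega
    have hp := pow_mod4 hD2
    have c1 : N % 4 = 1 ∨ N % 4 = 3 ∨ N % 2 = 0 := by omega
    have c2 : M % 4 = 1 ∨ M % 4 = 3 ∨ M % 2 = 0 := by omega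
    rcases c1 with c1 | c1 | c1
    · have b1 := u_one hD2 hN c1
      rcases c2 with c2 | c2 | c2
      · exact key1 N M hN hM c1 c2 h
      · have b2 := u_three hD2 hM c2
        linarith [b1.2, b2.1]
      · have b2 := u_even (by omega) hM c2
        linarith [b1.2, b2.1]
    · have b1 := u_three hD2 hN c1
      rcases c2 with c2 | c2 | c2
      · have b2 := u_one hD2 hM c2
        linarith [b1.1, b2.2]
      · have := key1 (2 ^ (D + 1) - N) (2 ^ (D + 1) - M) (by omega) (by omega) (by omega) (by omega)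
          (by rw [u_symm hN0 hN, u_symm hM0 hM, h])
        omega
      · have b2 := u_even (by omega) hM c2
        linarith [b1.1, b2.2]
    · have b1 := u_even (by omega) hN c1
      rcases c2 with c2 | c2 | c2
      · have b2 := u_one hD2 hM c2
        linarith [b1.1, b2.2]
      · have b2 := u_three hD2 hM c2
        linarith [b1.2, b2.1]
      · obtain ⟨a, rfl⟩ : ∃ a, N = 2 * a := ⟨N / 2, by omega⟩
        obtain ⟨b, rfl⟩ : ∃ b, M = 2 * b := ⟨M / 2, by omega⟩
        rw [u_two, u_two] at h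
        have hp : 2 ^ (D + 1) = 2 * 2 ^ D := by rw [pow_succ]; ring
        have := ih a b (by omega) (by omega) (by omega) (by omega) (by linarith)
        omega


/-- The exceptional values at the left end (positions 6 .. 16). -/
def E (N : ℕ) : ℚ :=
  ([10, 12, 11, -14, -13, 9, 5, 4, 7, 8, 6] : List ℚ).getD (N - 6) 0

/-- The full sequence, used on positions `6 .. 2^D - 6`. -/
def w (D N : ℕ) : ℚ :=
  if N ≤ 16 then E N else if 2 ^ D ≤ N + 16 then -E (2 ^ D - N) else u D N

theorem pow64 {D : ℕ} (hD : 6 ≤ D) : 64 ≤ 2 ^ D := by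
  calc 64 = 2 ^ 6 := by norm_num
    _ ≤ 2 ^ D := Nat.pow_le_pow_right (by norm_num) hD

theorem w_symm {D N : ℕ} (hD : 6 ≤ D) (h0 : 6 ≤ N) (hN : N + 6 ≤ 2 ^ D) :
    w D (2 ^ D - N) = -w D N := by
  have hp := pow64 hD
  unfold w
  rcases Nat.lt_or_ge 16 N with h1 | h1
  · rcases Nat.lt_or_ge (N + 16) (2 ^ D) with h2 | h2
    · rw [if_neg (by omega), if_neg (by omega), if_neg (by omega), if_neg (by omega),
        u_symm (by omega) (by omega)]
    · rw [if_pos (by omega), if_neg (by omega), if_pos (by omega)]; simp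
  · rw [if_neg (by omega), if_pos (by omega), if_pos (by omega)]
    congr 2; omega

theorem w_mid {D N : ℕ} (h1 : 16 < N) (h2 : N + 16 < 2 ^ D) : w D N = u D N := by
  unfold w
  rw [if_neg (by omega), if_neg (by omega)]

/-- The first 25 values. -/
def T : List ℚ :=
  [10, 12, 11, -14, -13, 9, 5, 4, 7, 8, 6, -37/18, -7/10, 59/20, -13/54, -45/22, 35/36, 71/24,
    11/108, -53/26, -29/42, 83/28, 23/72, -61/30, 47/48]

/-- Their ranks. -/
def P : List ℕ :=
  [22, 24, 23, 0, 1, 21, 17, 16, 19, 20, 18, 2, 6, 13, 8, 3, 11, 14, 9, 4, 7, 15, 10, 5, 12]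

theorem T_P : ∀ a < 25, ∀ b < 25, (T.getD a 0 < T.getD b 0 ↔ P.getD a 0 < P.getD b 0) := by
  decide +kernel

theorem w_tab {D : ℕ} (hD : 6 ≤ D) : ∀ t < 25, w D (t + 6) = T.getD t 0 := by
  have hp := pow64 hD
  have e3 : F 3 = 11/4 := by rw [F_three (by norm_num)]; norm_num
  have e5 : F 5 = -13/6 := by rw [F_one (by norm_num)]; norm_num
  have e7 : F 7 = 23/8 := by rw [F_three (by norm_num)]; norm_num
  have e9 : F 9 = -21/10 := by rw [F_one (by norm_num)]; norm_num
  have e11 : F 11 = 35/12 := by rw [F_three (by norm_num)]; norm_num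
  have e13 : F 13 = -29/14 := by rw [F_one (by norm_num)]; norm_num
  have e15 : F 15 = 47/16 := by rw [F_three (by norm_num)]; norm_num
  have f17 : F 17 = -37/18 := by rw [F_one (by norm_num)]; norm_num
  have f18 : F 18 = -7/10 := by rw [show (18:ℕ) = 2 * 9 by norm_num, F_two, e9]; norm_num
  have f19 : F 19 = 59/20 := by rw [F_three (by norm_num)]; norm_num
  have f20 : F 20 = -13/54 := by
    rw [show (20:ℕ) = 2 * (2 * 5) by norm_num, F_two, F_two, e5]; norm_num
  have f21 : F 21 = -45/22 := by rw [F_one (by norm_num)]; norm_num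
  have f22 : F 22 = 35/36 := by rw [show (22:ℕ) = 2 * 11 by norm_num, F_two, e11]; norm_num
  have f23 : F 23 = 71/24 := by rw [F_three (by norm_num)]; norm_num
  have f24 : F 24 = 11/108 := by
    rw [show (24:ℕ) = 2 * (2 * (2 * 3)) by norm_num, F_two, F_two, F_two, e3]; norm_num
  have f25 : F 25 = -53/26 := by rw [F_one (by norm_num)]; norm_num
  have f26 : F 26 = -29/42 := by rw [show (26:ℕ) = 2 * 13 by norm_num, F_two, e13]; norm_num
  have f27 : F 27 = 83/28 := by rw [F_three (by norm_num)]; norm_num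
  have f28 : F 28 = 23/72 := by
    rw [show (28:ℕ) = 2 * (2 * 7) by norm_num, F_two, F_two, e7]; norm_num
  have f29 : F 29 = -61/30 := by rw [F_one (by norm_num)]; norm_num
  have f30 : F 30 = 47/48 := by rw [show (30:ℕ) = 2 * 15 by norm_num, F_two, e15]; norm_num
  have hu : ∀ N, 16 < N → N ≤ 30 → w D N = F N := by
    intro N h1 h2
    rw [w_mid h1 (by omega), u, if_pos (by omega)]
  intro t ht
  rcases Nat.lt_or_ge t 11 with h | h
  · unfold w
    rw [if_pos (by omega)]
    interval_cases t <;> simp [E, T]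
  · rw [hu _ (by omega) (by omega)]
    interval_cases t <;> simp [T, f17, f18, f19, f20, f21, f22, f23, f24, f25, f26, f27, f28, f29,
      f30]

theorem w_P {D : ℕ} (hD : 6 ≤ D) (a b : ℕ) (ha : a < 25) (hb : b < 25) :
    (w D (a + 6) < w D (b + 6) ↔ P.getD a 0 < P.getD b 0) := by
  rw [w_tab hD a ha, w_tab hD b hb, T_P a ha b hb]

theorem w_sig {D N : ℕ} (hD : 6 ≤ D) (h0 : 6 ≤ N) (hN : N + 7 ≤ 2 ^ D) :
    (w D N < w D (N + 1) ↔ N % 4 = 1 ∨ N % 4 = 2) := by
  have hp := pow64 hD
  have hleft : ∀ M, 6 ≤ M → M ≤ 16 → (w D M < w D (M + 1) ↔ M % 4 = 1 ∨ M % 4 = 2) := by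
    intro M h1 h2
    obtain ⟨t, rfl⟩ : ∃ t, M = t + 6 := ⟨M - 6, by omega⟩
    have ht : t < 11 := by omega
    rw [show t + 6 + 1 = (t + 1) + 6 by ring, w_P hD t (t + 1) (by omega) (by omega)]
    interval_cases t <;> decide
  rcases Nat.lt_or_ge 16 N with h1 | h1
  · rcases Nat.lt_or_ge (N + 17) (2 ^ D) with h2 | h2
    · rw [w_mid h1 (by omega), w_mid (by omega) (by omega)]
      exact u_sig (by omega) (by omega)
    · have h3 := hleft (2 ^ D - (N + 1)) (by omega) (by omega)
      rw [show 2 ^ D - (N + 1) + 1 = 2 ^ D - N by omega, w_symm hD (by omega) (by omega),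
        w_symm hD (by omega) (by omega), neg_lt_neg_iff] at h3
      rw [h3]
      have := pow_mod4 (D := D) (by omega)
      omega
  · exact hleft N h0 h1

theorem u_bd {D N : ℕ} (hD : 2 ≤ D) (hN : N < 2 ^ D) : -3 < u D N ∧ u D N < 3 := by
  have h : N % 4 = 1 ∨ N % 4 = 3 ∨ N % 2 = 0 := by omega
  rcases h with h | h | h
  · have := u_one hD hN h
    constructor <;> linarith [this.1, this.2]
  · have := u_three hD hN h
    constructor <;> linarith [this.1, this.2]
  · have := u_even (by omega) hN h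
    constructor <;> linarith [this.1, this.2]

theorem E_bd {N : ℕ} (h0 : 6 ≤ N) (h1 : N ≤ 16) : E N < -3 ∨ 3 < E N := by
  interval_cases N <;> simp [E] <;> norm_num

theorem E_ne {N M : ℕ} (h0 : 6 ≤ N) (h1 : N ≤ 16) (h2 : 6 ≤ M) (h3 : M ≤ 16) : E N ≠ -E M := by
  have : ∀ a < 11, ∀ b < 11, E (a + 6) ≠ -E (b + 6) := by
    unfold E
    simp only [Nat.add_sub_cancel]
    decide +kernel
  have h := this (N - 6) (by omega) (M - 6) (by omega)
  rwa [show N - 6 + 6 = N by omega, show M - 6 + 6 = M by omega] at h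

theorem E_inj {N M : ℕ} (h0 : 6 ≤ N) (h1 : N ≤ 16) (h2 : 6 ≤ M) (h3 : M ≤ 16)
    (h : E N = E M) : N = M := by
  have : ∀ a < 11, ∀ b < 11, E (a + 6) = E (b + 6) → a = b := by
    unfold E
    simp only [Nat.add_sub_cancel]
    decide +kernel
  have h := this (N - 6) (by omega) (M - 6) (by omega)
    (by rwa [show N - 6 + 6 = N by omega, show M - 6 + 6 = M by omega])
  omega

theorem w_inj {D N M : ℕ} (hD : 6 ≤ D) (h0 : 6 ≤ N) (hN : N + 6 ≤ 2 ^ D) (h2 : 6 ≤ M)
    (hM : M + 6 ≤ 2 ^ D) (h : w D N = w D M) : N = M := by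
  have hp := pow64 hD
  unfold w at h
  rcases Nat.lt_or_ge 16 N with a1 | a1
  · rcases Nat.lt_or_ge (N + 16) (2 ^ D) with a2 | a2
    · -- N in region
      rw [if_neg (by omega), if_neg (by omega)] at h
      have b := u_bd (D := D) (N := N) (by omega) (by omega)
      rcases Nat.lt_or_ge 16 M with a3 | a3
      · rcases Nat.lt_or_ge (M + 16) (2 ^ D) with a4 | a4
        · rw [if_neg (by omega), if_neg (by omega)] at h
          exact u_inj D N M (by omega) (by omega) (by omega) (by omega) h
        · rw [if_neg (by omega), if_pos a4] at h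
          rcases E_bd (N := 2 ^ D - M) (by omega) (by omega) with e | e
          · linarith [b.1, b.2]
          · linarith [b.1, b.2]
      · rw [if_pos a3] at h
        rcases E_bd (N := M) (by omega) (by omega) with e | e
        · linarith [b.1, b.2]
        · linarith [b.1, b.2]
    · -- N at the right end
      rw [if_neg (by omega), if_pos a2] at h
      rcases Nat.lt_or_ge 16 M with a3 | a3
      · rcases Nat.lt_or_ge (M + 16) (2 ^ D) with a4 | a4
        · rw [if_neg (by omega), if_neg (by omega)] at h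
          have b := u_bd (D := D) (N := M) (by omega) (by omega)
          rcases E_bd (N := 2 ^ D - N) (by omega) (by omega) with e | e
          · linarith [b.1, b.2]
          · linarith [b.1, b.2]
        · rw [if_neg (by omega), if_pos a4] at h
          have := E_inj (N := 2 ^ D - N) (M := 2 ^ D - M) (by omega) (by omega) (by omega)
            (by omega) (by linarith)
          omega
      · rw [if_pos a3] at h
        exact absurd h.symm (E_ne (by omega) (by omega) (by omega) (by omega))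
  · rw [if_pos a1] at h
    rcases Nat.lt_or_ge 16 M with a3 | a3
    · rcases Nat.lt_or_ge (M + 16) (2 ^ D) with a4 | a4
      · rw [if_neg (by omega), if_neg (by omega)] at h
        have b := u_bd (D := D) (N := M) (by omega) (by omega)
        rcases E_bd (N := N) (by omega) (by omega) with e | e
        · linarith [b.1, b.2]
        · linarith [b.1, b.2]
      · rw [if_neg (by omega), if_pos a4] at h
        exact absurd h (E_ne (by omega) (by omega) (by omega) (by omega))
    · rw [if_pos a3] at h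
      exact E_inj (by omega) (by omega) (by omega) (by omega) h

theorem P_nosq : ∀ i < 10, ∀ l ∈ ([4, 8, 12] : List ℕ), i + l ≤ 13 →
    ¬ ∀ a < l, ∀ b < l, (P.getD (i + a) 0 < P.getD (i + b) 0 ↔
      P.getD (i + l + a) 0 < P.getD (i + l + b) 0) := by
  decide +kernel

theorem w_left {D i l : ℕ} (hD : 6 ≤ D) (hi : 6 ≤ i) (hi2 : i ≤ 16) (hl : 2 ≤ l)
    (hil : i + 2 * l + 5 ≤ 2 ^ D) : ¬ Sq (w D) i l := by
  intro hs
  have hp := pow64 hD
  have hmod := sig_mod hl hs (fun N h1 h2 => w_sig hD (by omega) (by omega))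
  have hp4 := pow_mod4 (D := D) (by omega)
  rcases Nat.lt_or_ge 19 (i + l) with h | h
  · have h1 := hs (16 - i) (by omega) (19 - i) (by omega)
    rw [show i + (16 - i) = 10 + 6 by omega, show i + (19 - i) = 13 + 6 by omega,
      w_P hD 10 13 (by norm_num) (by norm_num),
      show i + l + (16 - i) = 16 + l by omega, show i + l + (19 - i) = 19 + l by omega,
      w_mid (N := 16 + l) (by omega) (by omega), w_mid (N := 19 + l) (by omega) (by omega)] at h1
    have h2 := u_even (D := D) (N := 16 + l) (by omega) (by omega) (by omega)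
    have h3 := u_three (D := D) (N := 19 + l) (by omega) (by omega) (by omega)
    have h4 := h1.2 (by linarith [h2.2, h3.1])
    exact absurd h4 (by decide)
  · have hl3 : l ∈ ([4, 8, 12] : List ℕ) := by
      have : l = 4 ∨ l = 8 ∨ l = 12 := by omega
      simpa using this
    refine P_nosq (i - 6) (by omega) l hl3 (by omega) ?_
    intro a ha b hb
    rw [← w_P hD _ _ (by omega) (by omega), ← w_P hD _ _ (by omega) (by omega)]
    have h1 := hs a ha b hb
    rw [show i - 6 + a + 6 = i + a by omega, show i - 6 + b + 6 = i + b by omega,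
      show i - 6 + l + a + 6 = i + l + a by omega, show i - 6 + l + b + 6 = i + l + b by omega]
    exact h1

/-- Reflection of squares. -/
theorem Sq_reflect {f g : ℕ → ℚ} {n i l : ℕ} (hn : i + 2 * l ≤ n)
    (hfg : ∀ t < n, g t = -f (n - 1 - t)) (hs : Sq f i l) : Sq g (n - (i + 2 * l)) l := by
  intro a ha b hb
  have h := hs (l - 1 - b) (by omega) (l - 1 - a) (by omega)
  rw [hfg _ (by omega), hfg _ (by omega), hfg _ (by omega), hfg _ (by omega), neg_lt_neg_iff,
    neg_lt_neg_iff]
  rw [show n - 1 - (n - (i + 2 * l) + b) = i + l + (l - 1 - b) by omega,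
    show n - 1 - (n - (i + 2 * l) + a) = i + l + (l - 1 - a) by omega,
    show n - 1 - (n - (i + 2 * l) + l + b) = i + (l - 1 - b) by omega,
    show n - 1 - (n - (i + 2 * l) + l + a) = i + (l - 1 - a) by omega]
  exact h.symm

/-- The sequence indexed from `0`. -/
def f (D t : ℕ) : ℚ := w D (t + 6)

theorem f_symm {D t : ℕ} (hD : 6 ≤ D) (ht : t + 11 < 2 ^ D) :
    f D t = -f D (2 ^ D - 11 - 1 - t) := by
  have hp := pow64 hD
  unfold f
  rw [show 2 ^ D - 11 - 1 - t + 6 = 2 ^ D - (t + 6) by omega, w_symm hD (by omega) (by omega)]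
  simp

theorem f_inj {D s t : ℕ} (hD : 6 ≤ D) (hs : s + 11 < 2 ^ D) (ht : t + 11 < 2 ^ D)
    (h : f D s = f D t) : s = t := by
  have := w_inj hD (by omega) (by omega) (by omega) (by omega) h
  omega

theorem f_sqfree {D i l : ℕ} (hD : 6 ≤ D) (hl : 2 ≤ l) (hil : i + 2 * l + 11 ≤ 2 ^ D) :
    ¬ Sq (f D) i l := by
  have hp := pow64 hD
  have conv : ∀ i, Sq (f D) i l → Sq (w D) (i + 6) l := by
    intro i hs a ha b hb
    have := hs a ha b hb
    unfold f at this
    rw [show i + 6 + a = i + a + 6 by ring, show i + 6 + b = i + b + 6 by ring,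
      show i + 6 + l + a = i + l + a + 6 by ring, show i + 6 + l + b = i + l + b + 6 by ring]
    exact this
  intro hs
  rcases Nat.lt_or_ge 10 i with h1 | h1
  · rcases Nat.lt_or_ge (i + 2 * l + 21) (2 ^ D) with h2 | h2
    · have h3 := conv i hs
      refine u_sqfree l hl D (i + 6) (by omega) (by omega) ?_
      intro a ha b hb
      have := h3 a ha b hb
      rwa [w_mid (by omega) (by omega), w_mid (by omega) (by omega), w_mid (by omega) (by omega),
        w_mid (by omega) (by omega)] at this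
    · have h3 := Sq_reflect (f := f D) (g := f D) (n := 2 ^ D - 11) (by omega)
        (fun t ht => f_symm hD (by omega)) hs
      exact w_left hD (by omega) (by omega) hl (by omega) (conv _ h3)
  · exact w_left hD (by omega) (by omega) hl (by omega) (conv _ hs)

/-- Insertion of `x` at slot `p`. -/
def ins (g : ℕ → ℚ) (p : ℕ) (x : ℚ) (t : ℕ) : ℚ :=
  if t < p then g t else if t = p then x else g (t - 1)

theorem ins_lt {g : ℕ → ℚ} {p t : ℕ} {x : ℚ} (h : t < p) : ins g p x t = g t := by
  unfold ins; rw [if_pos h]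

theorem ins_eq {g : ℕ → ℚ} {p t : ℕ} {x : ℚ} (h : t = p) : ins g p x t = x := by
  unfold ins; rw [if_neg (by omega), if_pos h]

theorem ins_gt {g : ℕ → ℚ} {p t : ℕ} {x : ℚ} (h : p < t) : ins g p x t = g (t - 1) := by
  unfold ins; rw [if_neg (by omega), if_neg (by omega)]

theorem iff_of_not {A X B : Prop} (h1 : ¬ (A ↔ X)) (h2 : ¬ (X ↔ B)) : (A ↔ B) := by tauto

theorem Sq_two {g : ℕ → ℚ} {i : ℕ} (h1 : g i ≠ g (i + 1)) (h2 : g (i + 2) ≠ g (i + 3))
    (h : g i < g (i + 1) ↔ g (i + 2) < g (i + 3)) : Sq g i 2 := by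
  have h' : g (i + 1) < g i ↔ g (i + 3) < g (i + 2) := by
    constructor
    · intro h3
      rcases lt_or_gt_of_ne h2 with h4 | h4
      · exact absurd (h.2 h4) (not_lt.2 h3.le)
      · exact h4
    · intro h3
      rcases lt_or_gt_of_ne h1 with h4 | h4
      · exact absurd (h.1 h4) (not_lt.2 h3.le)
      · exact h4
  intro a ha b hb
  interval_cases a <;> interval_cases b
  · simp
  · simpa using h
  · simpa using h'
  · simp

theorem f_sig {D t : ℕ} (hD : 6 ≤ D) (ht : t + 12 < 2 ^ D) :
    (f D t < f D (t + 1) ↔ (t + 2) % 4 = 1 ∨ (t + 2) % 4 = 2) := by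
  have := w_sig (D := D) (N := t + 6) hD (by omega) (by omega)
  unfold f
  rw [show t + 1 + 6 = t + 6 + 1 by ring, this]
  omega

theorem mid_insert {D p : ℕ} {x : ℚ} (hD : 6 ≤ D) (hp : 3 ≤ p) (hp2 : p + 14 ≤ 2 ^ D)
    (hx : ∀ t, t + 11 < 2 ^ D → f D t ≠ x) :
    ∃ i, i ≤ p ∧ Sq (ins (f D) p x) i 2 := by
  have hne : ∀ s t, s + 11 < 2 ^ D → t + 11 < 2 ^ D → s ≠ t → f D s ≠ f D t :=
    fun s t hs ht hst h => hst (f_inj hD hs ht h)
  by_contra hcon
  push Not at hcon
  have g1 : ∀ t, t < p → ins (f D) p x t = f D t := by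
    intro t ht; unfold ins; rw [if_pos ht]
  have g2 : ins (f D) p x p = x := by
    unfold ins; rw [if_neg (by omega), if_pos rfl]
  have g3 : ∀ t, p < t → ins (f D) p x t = f D (t - 1) := by
    intro t ht; unfold ins; rw [if_neg (by omega), if_neg (by omega)]
  obtain ⟨q, rfl⟩ : ∃ q, p = q + 3 := ⟨p - 3, by omega⟩
  have c0 := hcon q (by omega)
  have c1 := hcon (q + 1) (by omega)
  have c2 := hcon (q + 2) (by omega)
  have c3 := hcon (q + 3) (by omega)
  have k0 : ¬ (f D q < f D (q + 1) ↔ f D (q + 2) < x) := by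
    intro h
    refine c0 (Sq_two ?_ ?_ ?_)
    · rw [g1 _ (by omega), g1 _ (by omega)]; exact hne _ _ (by omega) (by omega) (by omega)
    · rw [g1 _ (by omega), g2]; exact hx _ (by omega)
    · rw [g1 _ (by omega), g1 _ (by omega), g1 _ (by omega), g2]; exact h
  have k1 : ¬ (f D (q + 1) < f D (q + 2) ↔ x < f D (q + 3)) := by
    intro h
    refine c1 (Sq_two ?_ ?_ ?_)
    · rw [g1 _ (by omega), g1 _ (by omega)]; exact hne _ _ (by omega) (by omega) (by omega)
    · rw [show q + 1 + 2 = q + 3 by ring, g2, g3 _ (by omega)]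
      exact (hx _ (by omega)).symm
    · rw [g1 _ (by omega), g1 _ (by omega), show q + 1 + 2 = q + 3 by ring, g2, g3 _ (by omega)]
      exact h
  have k2 : ¬ (f D (q + 2) < x ↔ f D (q + 3) < f D (q + 4)) := by
    intro h
    refine c2 (Sq_two ?_ ?_ ?_)
    · rw [g1 _ (by omega), show q + 2 + 1 = q + 3 by ring, g2]; exact hx _ (by omega)
    · rw [g3 _ (by omega), g3 _ (by omega)]; exact hne _ _ (by omega) (by omega) (by omega)
    · rw [g1 _ (by omega), show q + 2 + 1 = q + 3 by ring, g2, g3 _ (by omega), g3 _ (by omega)]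
      exact h
  have k3 : ¬ (x < f D (q + 3) ↔ f D (q + 4) < f D (q + 5)) := by
    intro h
    refine c3 (Sq_two ?_ ?_ ?_)
    · rw [g2, g3 _ (by omega)]; exact (hx _ (by omega)).symm
    · rw [g3 _ (by omega), g3 _ (by omega)]; exact hne _ _ (by omega) (by omega) (by omega)
    · rw [g2, g3 _ (by omega), g3 _ (by omega), g3 _ (by omega)]
      exact h
  rw [f_sig hD (by omega)] at k0
  rw [f_sig hD (by omega)] at k1
  rw [f_sig hD (by omega)] at k2
  rw [f_sig (t := q + 4) hD (by omega)] at k3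
  have m1 := iff_of_not k0 k2
  have m2 := iff_of_not k1 k3
  clear k0 k1 k2 k3 c0 c1 c2 c3 hcon g1 g2 g3 hne hx
  omega

/-- The combinatorial model of an insertion near the left end. -/
def G (p c t : ℕ) : ℕ :=
  if t < p then 2 * P.getD t 0 + 1 else if t = p then 2 * c else 2 * P.getD (t - 1) 0 + 1

theorem G_lt {p c t : ℕ} (h : t < p) : G p c t = 2 * P.getD t 0 + 1 := by
  unfold G; rw [if_pos h]

theorem G_eq {p c t : ℕ} (h : t = p) : G p c t = 2 * c := by
  unfold G; rw [if_neg (by omega), if_pos h]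

theorem G_gt {p c t : ℕ} (h : p < t) : G p c t = 2 * P.getD (t - 1) 0 + 1 := by
  unfold G; rw [if_neg (by omega), if_neg (by omega)]

theorem G_sq : ∀ p < 3, ∀ c < 26, ∃ q ∈ ([(0, 2), (1, 2), (0, 4), (0, 8)] : List (ℕ × ℕ)),
    ∀ a < q.2, ∀ b < q.2, (G p c (q.1 + a) < G p c (q.1 + b) ↔
      G p c (q.1 + q.2 + a) < G p c (q.1 + q.2 + b)) := by
  decide +kernel

theorem P_le : ∀ a < 25, P.getD a 0 < 25 := by decide

theorem left_insert {D p : ℕ} {x : ℚ} (hD : 6 ≤ D) (hp : p < 3)
    (hx : ∀ t, t + 11 < 2 ^ D → f D t ≠ x) :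
    ∃ i l, 2 ≤ l ∧ i + 2 * l ≤ 18 ∧ Sq (ins (f D) p x) i l := by
  classical
  have h64 := pow64 hD
  have hfP : ∀ a b, a < 25 → b < 25 → (f D a < f D b ↔ P.getD a 0 < P.getD b 0) :=
    fun a b ha hb => w_P hD a b ha hb
  obtain ⟨c, hc⟩ : ∃ c, c = ((Finset.range 25).filter (fun a => f D a < x)).sup
      (fun a => P.getD a 0 + 1) := ⟨_, rfl⟩
  have hc1 : ∀ a < 25, (f D a < x ↔ P.getD a 0 < c) := by
    intro a ha
    constructor
    · intro h
      have : P.getD a 0 + 1 ≤ c := by
        rw [hc]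
        exact Finset.le_sup (f := fun a => P.getD a 0 + 1) (by simp [ha, h])
      omega
    · intro h
      by_contra h2
      have h3 : x < f D a := lt_of_le_of_ne (not_lt.1 h2) (hx a (by omega)).symm
      have : c ≤ P.getD a 0 := by
        rw [hc]
        apply Finset.sup_le
        intro b hb
        simp only [Finset.mem_filter, Finset.mem_range] at hb
        have := (hfP b a hb.1 ha).1 (hb.2.trans h3)
        omega
      omega
  have hc2 : c < 26 := by
    have : c ≤ 25 := by
      rw [hc]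
      apply Finset.sup_le
      intro b hb
      simp only [Finset.mem_filter, Finset.mem_range] at hb
      have := P_le b hb.1
      omega
    omega
  have hc3 : ∀ a < 25, (x < f D a ↔ c ≤ P.getD a 0) := by
    intro a ha
    have h1 := hc1 a ha
    have h2 := hx a (by omega)
    constructor
    · intro h
      by_contra h3
      exact absurd (h1.2 (by omega)) (not_lt.2 h.le)
    · intro h
      refine lt_of_le_of_ne (not_lt.1 ?_) h2.symm
      intro h3
      have := h1.1 h3
      omega
  have model : ∀ s < 26, ∀ t < 26, (ins (f D) p x s < ins (f D) p x t ↔ G p c s < G p c t) := by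
    intro s hs t ht
    clear hc
    rcases lt_trichotomy s p with a1 | a1 | a1
    · rw [ins_lt a1, G_lt a1]
      rcases lt_trichotomy t p with a2 | a2 | a2
      · rw [ins_lt a2, G_lt a2, hfP s t (by omega) (by omega)]; omega
      · rw [ins_eq a2, G_eq a2, hc1 s (by omega)]; omega
      · rw [ins_gt a2, G_gt a2, hfP s (t - 1) (by omega) (by omega)]; omega
    · rw [ins_eq a1, G_eq a1]
      rcases lt_trichotomy t p with a2 | a2 | a2
      · rw [ins_lt a2, G_lt a2, hc3 t (by omega)]; omega
      · rw [ins_eq a2, G_eq a2]; simp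
      · rw [ins_gt a2, G_gt a2, hc3 (t - 1) (by omega)]; omega
    · rw [ins_gt a1, G_gt a1]
      rcases lt_trichotomy t p with a2 | a2 | a2
      · rw [ins_lt a2, G_lt a2, hfP (s - 1) t (by omega) (by omega)]; omega
      · rw [ins_eq a2, G_eq a2, hc1 (s - 1) (by omega)]; omega
      · rw [ins_gt a2, G_gt a2, hfP (s - 1) (t - 1) (by omega) (by omega)]; omega
  obtain ⟨q, hq, h⟩ := G_sq p hp c hc2
  have hq2 : 2 ≤ q.2 ∧ q.1 + 2 * q.2 ≤ 18 := by
    simp only [List.mem_cons, List.not_mem_nil, or_false] at hq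
    rcases hq with rfl | rfl | rfl | rfl <;> simp
  refine ⟨q.1, q.2, hq2.1, hq2.2, ?_⟩
  intro a ha b hb
  rw [model _ (by omega) _ (by omega), model _ (by omega) _ (by omega)]
  exact h a ha b hb

theorem insert_sq {D p : ℕ} {x : ℚ} (hD : 6 ≤ D) (hp : p + 11 ≤ 2 ^ D)
    (hx : ∀ t, t + 11 < 2 ^ D → f D t ≠ x) :
    ∃ i l, 2 ≤ l ∧ i + 2 * l + 10 ≤ 2 ^ D ∧ Sq (ins (f D) p x) i l := by
  have h64 := pow64 hD
  rcases Nat.lt_or_ge p 3 with h1 | h1
  · obtain ⟨i, l, hl, hil, hs⟩ := left_insert hD h1 hx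
    exact ⟨i, l, hl, by omega, hs⟩
  · rcases Nat.lt_or_ge (2 ^ D) (p + 14) with h2 | h2
    · -- right end
      have hx' : ∀ t, t + 11 < 2 ^ D → f D t ≠ -x := by
        intro t ht h
        rw [f_symm hD ht] at h
        exact hx (2 ^ D - 11 - 1 - t) (by omega) (by linarith)
      obtain ⟨i, l, hl, hil, hs⟩ := left_insert (p := 2 ^ D - 11 - p) hD (by omega) hx'
      have h3 := Sq_reflect (f := ins (f D) (2 ^ D - 11 - p) (-x)) (g := ins (f D) p x)
        (n := 2 ^ D - 10) (i := i) (l := l) (by omega) ?_ hs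
      · exact ⟨2 ^ D - 10 - (i + 2 * l), l, hl, by omega, h3⟩
      · intro t ht
        unfold ins
        rcases lt_trichotomy t p with a1 | a1 | a1
        · rw [if_pos a1, if_neg (by omega), if_neg (by omega), f_symm hD (by omega)]
          congr 2; omega
        · rw [if_neg (by omega), if_pos a1, if_neg (by omega), if_pos (by omega)]; simp
        · rw [if_neg (by omega), if_neg (by omega), if_pos (by omega), f_symm hD (by omega)]
          congr 2; omega
    · obtain ⟨i, hi, hs⟩ := mid_insert hD h1 h2 hx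
      exact ⟨i, 2, le_rfl, by omega, hs⟩

end Run7.h674.SqFree
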